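import Mathlib

set_option autoImplicit false

namespace Pool.Agent.Results.MP_14f59b_co.Counter

/-- For one office with `m` candidates, where ballot `i` has weight `w i` and lists candidate
`o i p` in position `p`: in each position all candidates have the same weighted count. -/
def Bal {N m : ℕ} (w : Fin N → ℕ) (o : Fin N → Equiv.Perm (Fin m)) : Prop :=
  ∀ p c c', ∑ i with o i p = c, w i = ∑ i with o i p = c', w i

def T : Fin 19 → Fin 7 × Fin 8 × Fin 9 :=
  ![(0, 1, 6), (0, 7, 1), (1, 0, 7), (1, 6, 0), (2, 3, 4), (2, 3, 6), (2, 5, 3), (3, 2, 8),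
    (3, 4, 2), (4, 0, 1), (4, 3, 2), (4, 5, 5), (5, 1, 0), (5, 2, 3), (5, 5, 8), (5, 6, 5),
    (6, 4, 4), (6, 7, 5), (6, 7, 7)]

def W : Fin 19 → ℕ := ![42, 30, 37, 35, 17, 14, 41, 48, 24, 26, 32, 14, 21, 15, 8, 28, 39, 14, 19]

/-- A balanced ballot system for offices with `2n-1`, `2n`, `2n+1` candidates that uses fewer
than `6n-3` distinct ballots. -/
theorem result : ∃ (n N : ℕ) (w : Fin N → ℕ)
    (b : Fin N → Equiv.Perm (Fin (2 * n - 1)) × Equiv.Perm (Fin (2 * n)) ×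
      Equiv.Perm (Fin (2 * n + 1))),
    0 < n ∧ 0 < N ∧ Function.Injective b ∧ (∀ i, 0 < w i) ∧ Bal w (fun i => (b i).1) ∧
      Bal w (fun i => (b i).2.1) ∧ Bal w (fun i => (b i).2.2) ∧ N + 1 < 6 * n - 3 := by
  refine ⟨4, 19, W, fun i => ((Equiv.addRight (T i).1 : Equiv.Perm (Fin 7)),
    (Equiv.addRight (T i).2.1 : Equiv.Perm (Fin 8)), (Equiv.addRight (T i).2.2 : Equiv.Perm (Fin 9))),
    by norm_num, by norm_num, by decide +kernel, by decide, ?_, ?_, ?_, by norm_num⟩ <;>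
  unfold Bal <;> decide +kernel

end Pool.Agent.Results.MP_14f59b_co.Counter
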